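import Pool.Agent.H71.GEN.Kpf
import Pool.Agent.H76.GN.FtxOne

/-!
# `KP m` for every `m`: the assembly

The open Props are hypotheses.

* `FTX n`, `FZX n`: the exactness theorem (class form, form with side information),
  `fzx_of : FTX n → FZX n` (H1/GEN/Fx.lean), `ftx_one` (H76/GN/FtxOne.lean).
* `kp_fzx : FZX m → KP m` (H71/GEN/Kpf.lean).
* `LeafX n`: the induction step, the only open Prop.
-/

set_option autoImplicit false

namespace Pool.ALL

open Pool.KA Pool.GEN

/-- **(LEAF)**: the step of the induction. -/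
def LeafX (n : ℕ) : Prop := (∀ k, 1 ≤ k → k < n → FZX k) → FTX n

/-- The exactness theorem in the dimensions up to `m`. -/
theorem ftx_upto {m : ℕ} (hL : ∀ n, 2 ≤ n → n ≤ m → LeafX n) : ∀ n, 1 ≤ n → n ≤ m → FTX n := by
  intro n
  induction n using Nat.strong_induction_on with
  | _ n ih =>
    intro h1 h2
    rcases Nat.lt_or_ge 1 n with h3 | h3
    · exact hL n h3 h2 fun k hk hkn => fzx_of (ih k hkn hk (by omega))
    · have h4 : n = 1 := by omega
      rw [h4]
      exact ftx_one

/-- **`KP m`**, from the steps up to `m`. -/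
theorem kp_upto {m : ℕ} (hm : 1 ≤ m) (hL : ∀ n, 2 ≤ n → n ≤ m → LeafX n) : KP m :=
  kp_fzx (fzx_of (ftx_upto hL m hm le_rfl))

/-- **`KP m` for every `m`.** -/
theorem kp_all (hL : ∀ n, 2 ≤ n → LeafX n) : ∀ m, 1 ≤ m → KP m :=
  fun _ hm => kp_upto hm fun n hn _ => hL n hn

end Pool.ALL
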