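import Pool.Agent.H56.ALL.Three

/-!
# The step of the induction from the rows of maximal deficit

The deficit of a row `Q` is `1 - r' Q`. `Ext n x`: in all classes as in the exactness theorem
(with any slack), almost all rows above the diagonal threshold have deficit at most `x`.

`LocE n η Φ`: a local statement `Φ P r h` about the rows with deficit more than `h`, which may use
that all the rows of all classes have deficit at most `(1 + η D) D`, for the rows with deficit more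
than `(1 - η D) D` (`η` is any positive function of `D`).

`MicE`, `StaE`, `JmpE`: the three local statements for the rows with deficit more than `h`.
`leaf_ext`: they give the step of the induction; `kp_ext`: they give `KP m`.
-/

set_option autoImplicit false

namespace Pool.ONE

open Set MeasureTheory Pool.KA Pool.GEN Pool.STR Pool.LEV
open Pool.ALL
open Pool.LBT (LSys ThrOf Slo Tri)
open Pool.Agent.H49.Ent Pool.Agent.H32.Dense Pool.STK Pool.KSAT Pool.K2S Pool.PB Pool.S6C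

/-- Almost all rows above the diagonal threshold have deficit at most `x`. -/
def FullE (P : ℝ → ℝ → ℝ) (r : ℝ → ℝ) (x : ℝ) : Prop :=
  ∀ᵐ Q : ℝ, 0 < Q → Q < 1 → 0 < Lv P (Q, 0) → DifferentiableAt ℝ r Q → 1 - x ≤ deriv r Q

/-- **The deficits of all classes are at most `x`.** -/
def Ext (n : ℕ) (x : ℝ) : Prop :=
  ∀ (hn : 2 ≤ n) (al : ℝ) (g₀ : ℝ → ℝ) (s : Fin n → ℝ) (d : ℕ → ℝ),
    0 < al → (∀ ε : ℝ, 0 < ε → 0 < g₀ ε) → NumX s d →
    ∀ (e : ℝ) (K₀ : ℕ) (N : ℚ → ℚ → ℝ) (S : PCl n), 0 < e →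
    ClX s d al g₀ e K₀ N S → ∀ (P : ℝ → ℝ → ℝ) (r : ℝ → ℝ),
    ThrOf (tgs (lst hn)) S (fun _ => P) → RateOf S (lst hn) r → FullE P r x

/-- **A local statement about the rows of maximal deficit.** -/
def LocE (n : ℕ) (η : ℝ → ℝ) (Φ : (ℝ → ℝ → ℝ) → (ℝ → ℝ) → ℝ → Prop) : Prop :=
  ∀ hn : 2 ≤ n, (∀ k, 1 ≤ k → k < n → FZX k) → ∀ D : ℝ, 0 < D → D ≤ 1 →
    Ext n ((1 + η D) * D) →
    ∀ (al : ℝ) (g₀ : ℝ → ℝ) (s : Fin n → ℝ) (d : ℕ → ℝ),
    0 < al → (∀ ε : ℝ, 0 < ε → 0 < g₀ ε) → NumX s d →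
    ∀ (e : ℝ) (K₀ : ℕ) (N : ℚ → ℚ → ℝ) (S : PCl n), 0 < e →
    ClX s d al g₀ e K₀ N S → ∀ (P : ℝ → ℝ → ℝ) (r : ℝ → ℝ),
    ThrOf (tgs (lst hn)) S (fun _ => P) → RateOf S (lst hn) r → Φ P r ((1 - η D) * D)

/-- **(M)** for the rows with deficit more than `h`. -/
def MicE (P : ℝ → ℝ → ℝ) (r : ℝ → ℝ) (h : ℝ) : Prop :=
  ∀ᵐ Q : ℝ, 0 < Q → Q < 1 → 0 < Lv P (Q, 0) → DifferentiableAt ℝ (fun Q => Lv P (Q, 0)) Q →
    0 < deriv (fun Q => Lv P (Q, 0)) Q → DifferentiableAt ℝ r Q → deriv r Q < 1 - h → WfU P Q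

/-- **(S)** for the rows with deficit more than `h`. -/
def StaE (P : ℝ → ℝ → ℝ) (r : ℝ → ℝ) (h : ℝ) : Prop :=
  ∀ᵐ Q : ℝ, 0 < Q → Q < 1 → 0 < Lv P (Q, 0) → DifferentiableAt ℝ (fun Q => Lv P (Q, 0)) Q →
    0 < deriv (fun Q => Lv P (Q, 0)) Q → WfU P Q → DifferentiableAt ℝ r Q → 1 - h ≤ deriv r Q

/-- **(J)** for the rows with deficit more than `h`. -/
def JmpE (P : ℝ → ℝ → ℝ) (r : ℝ → ℝ) (h : ℝ) : Prop :=
  ∀ᵐ Q : ℝ, 0 < Q → Q < 1 → 0 < Lv P (Q, 0) → DifferentiableAt ℝ (fun Q => Lv P (Q, 0)) Q →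
    deriv (fun Q => Lv P (Q, 0)) Q = 0 → DifferentiableAt ℝ r Q → 1 - h ≤ deriv r Q

/-! ### The local statements without extremality are stronger -/

theorem micE_of {P : ℝ → ℝ → ℝ} {r : ℝ → ℝ} {h : ℝ} (hh : 0 ≤ h) (H : MicW P r) :
    MicE P r h := by
  filter_upwards [H] with Q h1 a b c d e f g
  exact h1 a b c d e f (by linarith)

theorem of_all {p : ℝ → Prop} {r : ℝ → ℝ} {h : ℝ} (hh : 0 ≤ h)
    (H : ∀ h : ℝ, 0 < h → ∀ᵐ Q : ℝ, p Q → 1 - h ≤ deriv r Q) :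
    ∀ᵐ Q : ℝ, p Q → 1 - h ≤ deriv r Q := by
  have hn : ∀ n : ℕ, (0 : ℝ) < 1 / ((n : ℝ) + 1) := fun n => by positivity
  filter_upwards [ae_all_iff.2 fun n => H _ (hn n)] with Q h1 h2
  by_contra hcon
  push Not at hcon
  have h3 : 0 < 1 - deriv r Q := by linarith
  obtain ⟨n, hn'⟩ := exists_nat_one_div_lt h3
  have := h1 n h2
  linarith

theorem staE_of {P : ℝ → ℝ → ℝ} {r : ℝ → ℝ} {h : ℝ} (hh : 0 ≤ h) (H : StaU P r) :
    StaE P r h := by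
  have h1 := of_all (r := r) (h := h) (p := fun Q => 0 < Q ∧ Q < 1 ∧ 0 < Lv P (Q, 0) ∧
    DifferentiableAt ℝ (fun Q => Lv P (Q, 0)) Q ∧ 0 < deriv (fun Q => Lv P (Q, 0)) Q ∧
    WfU P Q ∧ DifferentiableAt ℝ r Q) hh fun h' hh' => by
      filter_upwards [H h' hh'] with Q h1 h2
      exact h1 h2.1 h2.2.1 h2.2.2.1 h2.2.2.2.1 h2.2.2.2.2.1 h2.2.2.2.2.2.1 h2.2.2.2.2.2.2
  filter_upwards [h1] with Q h1 a b c d e f g
  exact h1 ⟨a, b, c, d, e, f, g⟩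

theorem jmpE_of {P : ℝ → ℝ → ℝ} {r : ℝ → ℝ} {h : ℝ} (hh : 0 ≤ h) (H : JmpN P r) :
    JmpE P r h := by
  have h1 := of_all (r := r) (h := h) (p := fun Q => 0 < Q ∧ Q < 1 ∧ 0 < Lv P (Q, 0) ∧
    DifferentiableAt ℝ (fun Q => Lv P (Q, 0)) Q ∧ deriv (fun Q => Lv P (Q, 0)) Q = 0 ∧
    DifferentiableAt ℝ r Q) hh fun h' hh' => by
      filter_upwards [H h' hh'] with Q h1 h2
      exact h1 h2.1 h2.2.1 h2.2.2.1 h2.2.2.2.1 h2.2.2.2.2.1 h2.2.2.2.2.2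
  filter_upwards [h1] with Q h1 a b c d e f
  exact h1 ⟨a, b, c, d, e, f⟩

/-- A statement about all classes gives the statement about the rows of maximal deficit. -/
theorem locE_of {n : ℕ} {η : ℝ → ℝ} {Φ : (ℝ → ℝ → ℝ) → (ℝ → ℝ) → Prop}
    {Ψ : (ℝ → ℝ → ℝ) → (ℝ → ℝ) → ℝ → Prop} (hη : ∀ D, 0 < D → η D ≤ 1)
    (hΦ : ∀ P r h, 0 ≤ h → Φ P r → Ψ P r h) (H : LocN n Φ) : LocE n η Ψ := by
  intro hn hZ D hD _ _ al g₀ s d h1 h2 h3 e K₀ N S h4 h5 P r h6 h7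
  exact hΦ P r _ (mul_nonneg (by linarith [hη D hD]) hD.le)
    (H hn hZ al g₀ s d h1 h2 h3 e K₀ N S h4 h5 P r h6 h7)

theorem micE_of_mic {n : ℕ} {η : ℝ → ℝ} (hη : ∀ D, 0 < D → η D ≤ 1) (H : Mic n) : LocE n η MicE :=
  locE_of hη (fun _ _ _ => micE_of) H

theorem staE_of_sta {n : ℕ} {η : ℝ → ℝ} (hη : ∀ D, 0 < D → η D ≤ 1) (H : Sta n) : LocE n η StaE :=
  locE_of hη (fun _ _ _ => staE_of) H

theorem jmpE_of_jmp {n : ℕ} {η : ℝ → ℝ} (hη : ∀ D, 0 < D → η D ≤ 1) (H : Jmp n) : LocE n η JmpE :=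
  locE_of hη (fun _ _ _ => jmpE_of) H

/-! ### The assembly -/

/-- Almost all rows above the threshold have deficit at most `h`. -/
theorem fullE {P : ℝ → ℝ → ℝ} (hP : Law P) {r : ℝ → ℝ} {h : ℝ} (hM : MicE P r h)
    (hS : StaE P r h) (hJ : JmpE P r h) : FullE P r h := by
  have hg : ∀ᵐ Q : ℝ, DifferentiableAt ℝ (fun Q => Lv P (Q, 0)) Q := by
    have : LipschitzWith 1 (fun Q => Lv P (Q, 0)) := by
      refine LipschitzWith.of_dist_le_mul fun x y => ?_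
      refine ((Lv_lip hP).dist_le_mul _ _).trans ?_
      rw [Prod.dist_eq]
      simp
    exact this.ae_differentiableAt_real
  have hgm : Monotone (fun Q => Lv P (Q, 0)) := fun x y hxy => Lv_mono hP ⟨hxy, le_rfl⟩
  filter_upwards [hM, hg, hS, hJ] with Q k1 k2 k3 k4 h0 h1 hw hd
  by_contra hcon
  push Not at hcon
  have hg0 : 0 ≤ deriv (fun Q => Lv P (Q, 0)) Q := hgm.deriv_nonneg
  rcases eq_or_lt_of_le hg0 with h3 | h3
  · exact absurd (k4 h0 h1 hw k2 h3.symm hd) (not_le.2 hcon)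
  · exact absurd (k3 h0 h1 hw k2 h3 (k1 h0 h1 hw k2 h3 hd hcon) hd) (not_le.2 hcon)

/-- The cost of the rows above the threshold of a macroscopic window. -/
theorem rowsE {P : ℝ → ℝ → ℝ} (hP : Law P) {r : ℝ → ℝ} (hr : Monotone r) {w x : ℝ} (hw : 0 < w)
    (hw1 : w ≤ 1) (hG0 : 0 ≤ P w w) (hG : P w w ≤ 1) (hx : 0 ≤ x) (hF : FullE P r x) :
    (1 - x) * (1 - P w w) ≤ r 1 - r (P w w) := by
  have hr' : Monotone fun Q => r Q + x * Q := fun a b hab =>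
    add_le_add (hr hab) (mul_le_mul_of_nonneg_left hab hx)
  have h1 := cost (ρ := fun Q => r Q + x * Q) (G := P w w) (hr'.monotoneOn _) hG ?_
  · linarith
  · filter_upwards [hF, hr.ae_differentiableAt] with Q hQ hd' h1 h2 _
    have h0 : 0 < Q := hG0.trans_lt h1
    have h3 : 0 < Lv P (Q, 0) := by
      rw [Lv_eq le_rfl zero_le_one h0.le h2.le]
      refine lt_of_lt_of_le hw (le_csInf ⟨1, one_mem zero_le_one⟩ ?_)
      rintro a ⟨a1, a2, a3⟩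
      by_contra hc
      push Not at hc
      rcases a3 with a3 | a3
      · rw [sub_zero] at a3
        have := hP.mono a1 le_rfl hc.le hc.le le_rfl hw1
        linarith
      · linarith
    have h4 := hQ h0 h2 h3 hd'
    have h5 : deriv (fun Q => r Q + x * Q) Q = deriv r Q + x := by
      have h6 : HasDerivAt (fun Q : ℝ => x * Q) x Q := by
        simpa using (hasDerivAt_id Q).const_mul x
      exact (hd'.hasDerivAt.add h6).deriv
    rw [h5]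
    linarith

/-- **The exactness theorem**, if the deficits are arbitrarily small. -/
theorem ftx_of_ext {n : ℕ} (hn : 2 ≤ n) (hZ : ∀ k, 1 ≤ k → k < n → FZX k)
    (hE : ∀ x : ℝ, 0 < x → Ext n x) : FTX n := by
  intro ρ al hρ hal g₀ hg₀ s d hsd
  obtain ⟨e₁, he₁, hD⟩ := N34.diaN n hn hZ al g₀ s d hal hg₀ hsd (ρ / 4) (by linarith)
  obtain ⟨e₂, he₂, hF⟩ := f1n n hn hZ al g₀ s d hal hg₀ hsd ρ (ρ / 4) hρ (by linarith)
  refine ⟨min e₁ e₂, lt_min he₁ he₂, ?_⟩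
  intro K₀ N hN S hS hmem hbtr hact hbad
  have hCl : ClX s d al g₀ (min e₁ e₂) K₀ N S := ⟨hN, hS, hmem, hbtr, hact⟩
  obtain ⟨S', P, r, h1, h2, h3, h4⟩ := numx (hasThr_tgs (lst hn)) hCl
  have hB : BadX s d al g₀ ρ e₂ S' :=
    ⟨⟨K₀, N, h1.slack (min_le_right _ _)⟩, Bas.sub h2 hbad⟩
  obtain ⟨w, hw, hw1, h5⟩ := hD K₀ N S' (h1.slack (min_le_left _ _)) (P ()) h3
  have h6 := hF S' hB (r (lst hn)) (h4 (lst hn))
  have h7 := hE (ρ / 4) (by linarith) hn al g₀ s d hal hg₀ hsd (min e₁ e₂) K₀ N S'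
    (lt_min he₁ he₂) h1 (P ()) (r (lst hn)) h3 (h4 (lst hn))
  have h8 : 0 ≤ P () w w := hw.le.trans (h3.low () w w hw.le le_rfl hw1)
  have h9 : 0 ≤ r (lst hn) (P () w w) := by
    have a1 := (h4 (lst hn)).mono h8
    rw [(h4 (lst hn)).zero] at a1
    exact a1
  have h10 : P () w w ≤ 1 := h3.up () w w hw.le le_rfl hw1
  have h11 := rowsE (h3.law ()) (h4 (lst hn)).mono hw hw1 h8 h10 (by linarith) h7
  nlinarith

/-- Deficits are at most `1`. -/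
theorem ext_one (n : ℕ) : Ext n 1 := by
  intro hn al g₀ s d _ _ _ e K₀ N S _ _ P r _ h7
  refine Filter.Eventually.of_forall fun Q _ _ _ _ => ?_
  rw [sub_self]
  exact h7.mono.deriv_nonneg

/-- **The step of the induction** from the rows of maximal deficit. -/
theorem leaf_ext {n : ℕ} {η : ℝ → ℝ} (hη : ∀ D, 0 < D → 0 < η D) (hM : LocE n η MicE)
    (hS : LocE n η StaE) (hJ : LocE n η JmpE) (hn : 2 ≤ n) : LeafX n := by
  intro hZ
  by_contra hcon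
  -- the set of the bounds for the deficits
  set X : Set ℝ := {x | 0 ≤ x ∧ Ext n x} with hX
  have hX1 : (1 : ℝ) ∈ X := ⟨zero_le_one, ext_one n⟩
  have hXb : BddBelow X := ⟨0, fun x hx => hx.1⟩
  set D := sInf X with hDdef
  have hD0 : 0 ≤ D := le_csInf ⟨1, hX1⟩ fun x hx => hx.1
  have hD1 : D ≤ 1 := csInf_le hXb hX1
  have mono : ∀ x y : ℝ, x ∈ X → x ≤ y → y ∈ X := by
    rintro x y ⟨h0, h⟩ hxy
    refine ⟨h0.trans hxy, ?_⟩
    intro hn al g₀ s d a1 a2 a3 e K₀ N S a4 a6 P r a7 a8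
    filter_upwards [h hn al g₀ s d a1 a2 a3 e K₀ N S a4 a6 P r a7 a8] with Q h1 b1 b2 b3 b4
    have := h1 b1 b2 b3 b4
    linarith
  have hDpos : 0 < D := by
    refine lt_of_le_of_ne hD0 fun h0 => hcon (ftx_of_ext hn hZ fun x hx => ?_)
    obtain ⟨y, hy, hyx⟩ := exists_lt_of_csInf_lt ⟨1, hX1⟩ (show sInf X < x by rw [← hDdef, ← h0]; exact hx)
    exact (mono y x hy hyx.le).2
  obtain ⟨y, hy, hyD⟩ := exists_lt_of_csInf_lt ⟨1, hX1⟩
    (show sInf X < (1 + η D) * D by rw [← hDdef]; nlinarith [mul_pos (hη D hDpos) hDpos])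
  obtain ⟨-, hExt⟩ := mono y _ hy hyD.le
  have hlow : max ((1 - η D) * D) 0 ∈ X := by
    refine ⟨le_max_right _ _, ?_⟩
    intro hn al g₀ s d a1 a2 a3 e K₀ N S a4 a6 P r a7 a8
    have b1 := hM hn hZ D hDpos hD1 hExt al g₀ s d a1 a2 a3 e K₀ N S a4 a6 P r a7 a8
    have b2 := hS hn hZ D hDpos hD1 hExt al g₀ s d a1 a2 a3 e K₀ N S a4 a6 P r a7 a8
    have b3 := hJ hn hZ D hDpos hD1 hExt al g₀ s d a1 a2 a3 e K₀ N S a4 a6 P r a7 a8
    filter_upwards [fullE (a7.law ()) b1 b2 b3] with Q h1 c1 c2 c3 c4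
    have := h1 c1 c2 c3 c4
    have := le_max_left ((1 - η D) * D) 0
    linarith
  have h1 : D ≤ max ((1 - η D) * D) 0 := csInf_le hXb hlow
  rcases le_max_iff.1 h1 with h2 | h2
  · nlinarith [mul_pos (hη D hDpos) hDpos]
  · linarith

/-- **`KP m`** from the local statements about the rows of maximal deficit. -/
theorem kp_ext {m : ℕ} (hm : 1 ≤ m) (η : ℕ → ℝ → ℝ) (hη : ∀ n D, 0 < D → 0 < η n D)
    (hM : ∀ n, 2 ≤ n → n ≤ m → LocE n (η n) MicE) (hS : ∀ n, 2 ≤ n → n ≤ m → LocE n (η n) StaE)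
    (hJ : ∀ n, 2 ≤ n → n ≤ m → LocE n (η n) JmpE) : KP m :=
  kp_upto hm fun n h1 h2 => leaf_ext (hη n) (hM n h1 h2) (hS n h1 h2) (hJ n h1 h2) h1

end Pool.ONE
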