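import Pool.Agent.H56.ALL.Ext

/-!
# The rate of the rows of large deficit

`rt r h`: the function with `rt r h 0 = 0` whose derivative is `1` where `1 - h ≤ r'` and `r'`
elsewhere. It is `1`-Lipschitz and monotone, and `r b - r a ≤ rt r h b - rt r h a`. So a local
statement for the function `rt r h` is a statement about the rows with deficit more than `h`
(`micE_of_rt`, `staE_of_rt`, `jmpE_of_rt`).
-/

set_option autoImplicit false

namespace Pool.ONE

open Set MeasureTheory Pool.KA Pool.GEN Pool.STR Pool.LEV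
open Pool.ALL
open Pool.LBT (LSys ThrOf Slo Tri)

variable {P : ℝ → ℝ → ℝ} {r : ℝ → ℝ} {h : ℝ}

open Classical in
/-- The derivative of `rt r h`. -/
noncomputable def rtd (r : ℝ → ℝ) (h t : ℝ) : ℝ := if 1 - h ≤ deriv r t then 1 else deriv r t

/-- **The rate in which the rows with deficit at most `h` are full.** -/
noncomputable def rt (r : ℝ → ℝ) (h Q : ℝ) : ℝ := ∫ t in (0 : ℝ)..Q, rtd r h t

theorem rtd_meas (r : ℝ → ℝ) (h : ℝ) : Measurable (rtd r h) :=
  Measurable.ite (measurableSet_le measurable_const (measurable_deriv r)) measurable_const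
    (measurable_deriv r)

theorem deriv_le_one (hr : LipschitzWith 1 r) (t : ℝ) : deriv r t ≤ 1 := by
  have h1 := norm_deriv_le_of_lipschitz (x₀ := t) hr
  rw [Real.norm_eq_abs] at h1
  exact (le_abs_self _).trans (by simpa using h1)

theorem rtd_le (hr : LipschitzWith 1 r) (t : ℝ) : rtd r h t ≤ 1 := by
  unfold rtd
  split_ifs
  · exact le_rfl
  · exact deriv_le_one hr t

theorem rtd_nonneg (hm : Monotone r) (t : ℝ) : 0 ≤ rtd r h t := by
  unfold rtd
  split_ifs
  · exact zero_le_one
  · exact hm.deriv_nonneg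

theorem le_rtd (hr : LipschitzWith 1 r) (t : ℝ) : deriv r t ≤ rtd r h t := by
  unfold rtd
  split_ifs
  · exact deriv_le_one hr t
  · exact le_rfl

theorem rtd_int (hr : LipschitzWith 1 r) (hm : Monotone r) (a b : ℝ) :
    IntervalIntegrable (rtd r h) volume a b := by
  refine (intervalIntegrable_const (c := (1 : ℝ))).mono_fun
    (rtd_meas r h).aestronglyMeasurable (Filter.Eventually.of_forall fun t => ?_)
  show ‖rtd r h t‖ ≤ ‖(1 : ℝ)‖
  rw [Real.norm_eq_abs, Real.norm_eq_abs, abs_of_nonneg (rtd_nonneg hm t), abs_one]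
  exact rtd_le hr t

theorem rt_sub (hr : LipschitzWith 1 r) (hm : Monotone r) (a b : ℝ) :
    rt r h b - rt r h a = ∫ t in a..b, rtd r h t := by
  unfold rt
  rw [intervalIntegral.integral_interval_sub_left (rtd_int hr hm 0 b) (rtd_int hr hm 0 a)]

theorem rt_zero : rt r h 0 = 0 := by
  unfold rt
  exact intervalIntegral.integral_same

theorem rt_mono (hr : LipschitzWith 1 r) (hm : Monotone r) : Monotone (rt r h) := by
  intro a b hab
  have h1 := rt_sub (h := h) hr hm a b
  have h2 : 0 ≤ ∫ t in a..b, rtd r h t :=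
    intervalIntegral.integral_nonneg hab fun t _ => rtd_nonneg hm t
  linarith

theorem rt_lip (hr : LipschitzWith 1 r) (hm : Monotone r) : LipschitzWith 1 (rt r h) := by
  refine LipschitzWith.of_dist_le_mul fun a b => ?_
  rw [Real.dist_eq, Real.dist_eq, rt_sub (h := h) hr hm b a]
  have h1 := intervalIntegral.norm_integral_le_of_norm_le_const (a := b) (b := a)
    (f := rtd r h) (C := 1) fun t _ => by
      rw [Real.norm_eq_abs, abs_of_nonneg (rtd_nonneg hm t)]
      exact rtd_le hr t
  rw [Real.norm_eq_abs] at h1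
  simpa using h1

/-- The rows are at least as large. -/
theorem le_rt (hr : LipschitzWith 1 r) (hm : Monotone r) {a b : ℝ} (hab : a ≤ b) :
    r b - r a ≤ rt r h b - rt r h a := by
  have h1 : ∫ t in a..b, deriv r t = r b - r a := by
    refine AbsolutelyContinuousOnInterval.integral_deriv_eq_sub ?_
    exact (hr.lipschitzOnWith (s := Set.uIcc a b)).absolutelyContinuousOnInterval
  rw [← h1, rt_sub (h := h) hr hm a b]
  refine intervalIntegral.integral_mono_on hab ?_ (rtd_int hr hm a b) fun t _ => le_rtd hr t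
  refine (intervalIntegrable_const (c := (1 : ℝ))).mono_fun
    (measurable_deriv r).aestronglyMeasurable (Filter.Eventually.of_forall fun t => ?_)
  show ‖deriv r t‖ ≤ ‖(1 : ℝ)‖
  rw [Real.norm_eq_abs, Real.norm_eq_abs, abs_of_nonneg hm.deriv_nonneg, abs_one]
  exact deriv_le_one hr t

/-- The derivative. -/
theorem rt_deriv (hr : LipschitzWith 1 r) (hm : Monotone r) :
    ∀ᵐ Q : ℝ, HasDerivAt (rt r h) (rtd r h Q) Q := by
  have h1 : LocallyIntegrable (rtd r h) volume := by
    refine (locallyIntegrable_const (1 : ℝ)).mono (rtd_meas r h).aestronglyMeasurable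
      (Filter.Eventually.of_forall fun t => ?_)
    rw [Real.norm_eq_abs, Real.norm_eq_abs, abs_of_nonneg (rtd_nonneg hm t), abs_one]
    exact rtd_le hr t
  filter_upwards [LocallyIntegrable.ae_hasDerivAt_integral h1] with Q hQ
  exact hQ 0

/-- **(M)** for the rows with deficit more than `h`. -/
theorem micE_of_rt (hr : LipschitzWith 1 r) (hm : Monotone r) (hh : 0 ≤ h)
    (H : MicW P (rt r h)) : MicE P r h := by
  filter_upwards [H, rt_deriv (h := h) hr hm] with Q h1 h2 a b c d e _ g
  refine h1 a b c d e h2.differentiableAt ?_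
  rw [h2.deriv]
  unfold rtd
  rw [if_neg (not_le.2 g)]
  linarith

theorem one_sub_le {Q : ℝ} (hh : 0 ≤ h) (h2 : HasDerivAt (rt r h) (rtd r h Q) Q)
    (h3 : 1 ≤ deriv (rt r h) Q) : 1 - h ≤ deriv r Q := by
  by_contra hcon
  rw [h2.deriv] at h3
  unfold rtd at h3
  rw [if_neg hcon] at h3
  linarith

/-- **(S)** for the rows with deficit more than `h`. -/
theorem staE_of_rt (hr : LipschitzWith 1 r) (hm : Monotone r) (hh : 0 ≤ h)
    (H : StaU P (rt r h)) : StaE P r h := by
  have h0 := staE_of (le_refl (0 : ℝ)) H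
  filter_upwards [h0, rt_deriv (h := h) hr hm] with Q h1 h2 a b c d e f _
  have h3 := h1 a b c d e f h2.differentiableAt
  rw [sub_zero] at h3
  exact one_sub_le hh h2 h3

/-- **(J)** for the rows with deficit more than `h`. -/
theorem jmpE_of_rt (hr : LipschitzWith 1 r) (hm : Monotone r) (hh : 0 ≤ h)
    (H : JmpN P (rt r h)) : JmpE P r h := by
  have h0 := jmpE_of (le_refl (0 : ℝ)) H
  filter_upwards [h0, rt_deriv (h := h) hr hm] with Q h1 h2 a b c d e _
  have h3 := h1 a b c d e h2.differentiableAt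
  rw [sub_zero] at h3
  exact one_sub_le hh h2 h3

end Pool.ONE
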