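import Pool.Agent.H1.GEN.One
import Pool.Agent.H83.GN.F1N
import Pool.Agent.H34.GEN.Dia

/-!
# `KP m` from the three local statements

`kp_three`: the threshold at a small window (`Pool.GEN.N34.diaN`) and the rate of a counterexample
(`Pool.ONE.f1n`) are theorems, so `KP m` follows from `Mic n`, `Sta n`, `Jmp n` for `2 ≤ n ≤ m`.
-/

set_option autoImplicit false

namespace Pool.ONE

open Pool.KA Pool.GEN
open Pool.ALL (LeafX kp_upto)

/-- The step of the induction. -/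
theorem leaf_three {n : ℕ} (hn : 2 ≤ n) (hM : Mic n) (hS : Sta n) (hJ : Jmp n) : LeafX n :=
  leaf_one hM hS hJ (N34.diaN n) (f1n n) hn

/-- **`KP m`** from the three local statements in the dimensions up to `m`. -/
theorem kp_three {m : ℕ} (hm : 1 ≤ m) (hM : ∀ n, 2 ≤ n → n ≤ m → Mic n)
    (hS : ∀ n, 2 ≤ n → n ≤ m → Sta n) (hJ : ∀ n, 2 ≤ n → n ≤ m → Jmp n) : KP m :=
  kp_upto hm fun n h1 h2 => leaf_three h1 (hM n h1 h2) (hS n h1 h2) (hJ n h1 h2)

/-- The same as an induction on the dimension: in the step one may use `KP` and the three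
statements in smaller dimensions. -/
theorem kp_ind (hM : ∀ n, 2 ≤ n → (∀ k, 2 ≤ k → k < n → Mic k ∧ Sta k ∧ Jmp k) → Mic n)
    (hS : ∀ n, 2 ≤ n → (∀ k, 2 ≤ k → k < n → Mic k ∧ Sta k ∧ Jmp k) → Mic n → Sta n)
    (hJ : ∀ n, 2 ≤ n → (∀ k, 2 ≤ k → k < n → Mic k ∧ Sta k ∧ Jmp k) → Mic n → Sta n → Jmp n) :
    ∀ m, 1 ≤ m → KP m := by
  have h : ∀ n, 2 ≤ n → Mic n ∧ Sta n ∧ Jmp n := by
    intro n
    induction n using Nat.strong_induction_on with
    | _ n ih =>
      intro hn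
      have h0 : ∀ k, 2 ≤ k → k < n → Mic k ∧ Sta k ∧ Jmp k := fun k h1 h2 => ih k h2 h1
      have h1 := hM n hn h0
      have h2 := hS n hn h0 h1
      exact ⟨h1, h2, hJ n hn h0 h1 h2⟩
  exact fun m hm => kp_three hm (fun n h1 _ => (h n h1).1) (fun n h1 _ => (h n h1).2.1)
    fun n h1 _ => (h n h1).2.2

end Pool.ONE
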