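import Pool.Agent.H56.ALL.Rt
import Pool.Agent.H77.STAT.TopI

/-!
# The top with the rows of maximal deficit

`LocE.mono`: consequences of local statements about the rows of maximal deficit. `CellE n η`: the
charts and orders of `Pool.STR.CellD.FullI`, for the function `rt r h` in place of the rate `r`
(`h` is almost the maximal deficit). They give `MicE` and `StaE`.
-/

set_option autoImplicit false

namespace Pool.ONE

open Set MeasureTheory Pool.KA Pool.GEN Pool.STR Pool.LEV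
open Pool.ALL Pool.STK Pool.PB
open Pool.LBT (LSys ThrOf Slo Tri)

variable {n : ℕ} {η : ℝ → ℝ}

/-- Consequences of local statements. -/
theorem LocE.mono {Φ Ψ : (ℝ → ℝ → ℝ) → (ℝ → ℝ) → ℝ → Prop} (hη : ∀ D, 0 < D → η D ≤ 1)
    (H : LocE n η Φ)
    (hΦ : ∀ P r h, Law P → (∀ a w, 0 ≤ w → w ≤ a → a ≤ 1 → a ≤ P a w ∧ P a w ≤ 1) →
      LipschitzWith 1 r → Monotone r → r 0 = 0 → 0 ≤ h → Φ P r h → Ψ P r h) : LocE n η Ψ := by
  intro hn hZ D hD hD1 hE al g₀ s d h1 h2 h3 e K₀ N S h4 h6 P r h7 h8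
  exact hΦ P r _ (h7.law ()) (fun a w h0 h1 h2 => ⟨h7.low () a w h0 h1 h2, h7.up () a w h0 h1 h2⟩)
    h8.lip h8.mono h8.zero (mul_nonneg (by linarith [hη D hD]) hD.le)
    (H hn hZ D hD hD1 hE al g₀ s d h1 h2 h3 e K₀ N S h4 h6 P r h7 h8)

/-- **Charts without cells and with a strategy**, for the rows of maximal deficit. -/
def CellE (n : ℕ) (η : ℝ → ℝ) : Prop := LocE n η fun P r h => ∃ E : CellD P (rt r h), E.FullI

theorem CellE.mic (hη : ∀ D, 0 < D → η D ≤ 1) (H : CellE n η) : LocE n η MicE := by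
  refine LocE.mono hη H fun P r h h1 h2 h3 h4 _ hh h6 => ?_
  obtain ⟨E, hE⟩ := h6
  exact micE_of_rt h3 h4 hh (hE.micW h1 (fun a h0 h1' =>
    ⟨h0.trans (h2 a a h0 le_rfl h1').1, (h2 a a h0 le_rfl h1').2⟩) (rt_lip h3 h4))

theorem CellE.sta (hη : ∀ D, 0 < D → η D ≤ 1) (H : CellE n η) : LocE n η StaE := by
  refine LocE.mono hη H fun P r h h1 h2 h3 h4 _ hh h6 => ?_
  obtain ⟨E, hE⟩ := h6
  exact staE_of_rt h3 h4 hh (hE.staU h1 (fun a h0 h1' =>
    ⟨h0.trans (h2 a a h0 le_rfl h1').1, (h2 a a h0 le_rfl h1').2⟩) (rt_lip h3 h4))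

/-- **`KP m`** from the cells and the jumps, for the rows of maximal deficit. -/
theorem kp_cell {m : ℕ} (hm : 1 ≤ m) (η : ℕ → ℝ → ℝ) (hη : ∀ n D, 0 < D → 0 < η n D)
    (hη1 : ∀ n D, 0 < D → η n D ≤ 1) (hC : ∀ n, 2 ≤ n → n ≤ m → CellE n (η n))
    (hJ : ∀ n, 2 ≤ n → n ≤ m → LocE n (η n) JmpE) : KP m :=
  kp_ext hm η hη (fun n h1 h2 => (hC n h1 h2).mic (hη1 n))
    (fun n h1 h2 => (hC n h1 h2).sta (hη1 n)) hJ

end Pool.ONE
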